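import Pool.Agent.Lib.TGA_h98.Fam
import Pool.Agent.Lib.TGA_h53.E5

/-!
# TANK G, END block: row E5 (STEP 1: index `e` => index `1`)
-/

set_option autoImplicit false

namespace Pool.Agent.TG

open Pool.Agent.TGA98 Pool.Agent.TGh53

universe u

/-- Row E5: from a toric atlas of index `e` to a toric atlas of index `1`. -/
theorem rowE5 {k : Type u} [Field k] [IsAlgClosed k] {n : ℕ}
    {K : Type u} [Field K] [Algebra k K] {P : Submodule k K} (hP : IsModel P) (hF : Fin' P) {N : ℕ}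
    {Q : Fin N → Submodule k K} (hQ : ∀ j, IsModel (Q j)) {e : ℕ} (he : 0 < e)
    (h : HasAtlas n P Q (fun _ => 0) e) :
    ∃ (P' : Submodule k K) (N' : ℕ) (Q' : Fin N' → Submodule k K) (a' : Fin N' → ℕ),
      IsModel P' ∧ Fin' P' ∧ (∀ j, IsModel (Q' j)) ∧ (∀ j, ∃ j', Q' j' = Q j ∧ a' j' = 0) ∧
        HasAtlas n P' Q' a' 1 := by
  obtain ⟨M, R, hR, hf⟩ := fam hP hF hQ he h
  exact rowE5_of hP hF hQ he ⟨M, R, hR, fun C =>
    ⟨fun V hV hU d => (hf C V hV hU d).1, fun V hV hU d => (hf C V hV hU d).2⟩⟩ h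

end Pool.Agent.TG
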