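import Pool.Agent.Lib.TGA_h98.Valid
import Pool.Agent.Lib.TGA_h53.Full
import Pool.Agent.Lib.TGA_h96.Gordan
import Pool.Agent.Lib.TG_h98.FamR

/-!
# TANK G, END block, STEP 1: the roots of the classes form coherent families
-/

set_option autoImplicit false

namespace Pool.Agent.TGA98

open Pool.Agent.TG Pool.Agent.TG98
open Pool.Agent.LU2 (locV le_locV locV_mono locV_le locV_inv locV_mem locV_locV)
open Pool.Agent.TGh53 (frac Nrm adj etale_ncl)

universe u

section Gen

variable {k K : Type u} [Field k] [Field K] [Algebra k K]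

/-- Modules over `R` generated by subsets of `K`. -/
theorem coe_span (R : Subalgebra k K) (S : Set K) :
    (Submodule.span R S : Set K) =
      (Subalgebra.toSubmodule R * Submodule.span k S : Submodule k K) := by
  ext x
  constructor
  · intro hx
    induction hx using Submodule.span_induction with
    | mem x hx =>
      have := Submodule.mul_mem_mul (show (1 : K) ∈ Subalgebra.toSubmodule R from R.one_mem)
        (Submodule.subset_span (R := k) hx)
      rwa [one_mul] at this
    | zero => exact Submodule.zero_mem _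
    | add x y _ _ hx hy => exact Submodule.add_mem _ hx hy
    | smul a x _ hx =>
      rw [Algebra.smul_def]
      exact smul_mem' a.2 hx
  · intro hx
    refine Submodule.mul_induction_on (C := fun x => x ∈ (Submodule.span R S : Set K)) hx ?_ ?_
    · intro m hm y hy
      refine Submodule.span_induction (p := fun y _ => m * y ∈ (Submodule.span R S : Set K))
        ?_ ?_ ?_ ?_ hy
      · intro y hy
        have := Submodule.smul_mem (Submodule.span R S) (⟨m, hm⟩ : R) (Submodule.subset_span hy)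
        exact this
      · rw [mul_zero]; exact Submodule.zero_mem _
      · intro x y _ _ hx hy
        rw [mul_add]
        exact Submodule.add_mem _ hx hy
      · intro c x _ hx
        rw [mul_smul_comm, Algebra.smul_def]
        have := Submodule.smul_mem (Submodule.span R S)
          (⟨algebraMap k K c, R.algebraMap_mem c⟩ : R) hx
        exact this
    · intro x y hx hy
      exact Submodule.add_mem _ hx hy

theorem mem_mul_span {R : Subalgebra k K} {c z : K} :
    z ∈ Subalgebra.toSubmodule R * Submodule.span k {c} ↔ ∃ s ∈ R, z = s * c := by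
  constructor
  · intro h
    refine Submodule.mul_induction_on (C := fun z => ∃ s ∈ R, z = s * c) h ?_ ?_
    · intro s hs y hy
      obtain ⟨b, rfl⟩ := Submodule.mem_span_singleton.1 hy
      exact ⟨b • s, R.smul_mem hs b, by rw [mul_smul_comm, smul_mul_assoc]⟩
    · rintro _ _ ⟨s, hs, rfl⟩ ⟨t, ht, rfl⟩
      exact ⟨s + t, R.add_mem hs ht, by rw [add_mul]⟩
  · rintro ⟨s, hs, rfl⟩
    exact Submodule.mul_mem_mul hs (Submodule.mem_span_singleton_self c)

/-- The `R`-module generated by `W` is `R c`. -/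
def Prn (R : Subalgebra k K) (W : Submodule k K) (c : K) : Prop :=
  Subalgebra.toSubmodule R * W = Subalgebra.toSubmodule R * Submodule.span k {c}

theorem Prn.one (R : Subalgebra k K) : Prn R 1 1 := by
  rw [Prn, Submodule.one_eq_span]

theorem Prn.mul {R : Subalgebra k K} {W W' : Submodule k K} {c c' : K} (h : Prn R W c)
    (h' : Prn R W' c') : Prn R (W * W') (c * c') := by
  rw [Prn] at h h' ⊢
  calc Subalgebra.toSubmodule R * (W * W') = Subalgebra.toSubmodule R * W * W' := by
        rw [mul_assoc]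
    _ = Subalgebra.toSubmodule R * Submodule.span k {c} * W' := by rw [h]
    _ = Submodule.span k {c} * (Subalgebra.toSubmodule R * W') := by
        rw [mul_comm (Subalgebra.toSubmodule R) (Submodule.span k {c}), mul_assoc]
    _ = Submodule.span k {c} * (Subalgebra.toSubmodule R * Submodule.span k {c'}) := by rw [h']
    _ = Subalgebra.toSubmodule R * (Submodule.span k {c} * Submodule.span k {c'}) := by
        rw [← mul_assoc, mul_comm (Submodule.span k {c}) (Subalgebra.toSubmodule R), mul_assoc]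
    _ = _ := by rw [Submodule.span_mul_span, Set.singleton_mul_singleton]

theorem Prn.pow {R : Subalgebra k K} {W : Submodule k K} {c : K} (h : Prn R W c) (n : ℕ) :
    Prn R (W ^ n) (c ^ n) := by
  induction n with
  | zero => rw [pow_zero, pow_zero]; exact Prn.one R
  | succ n ih => rw [pow_succ, pow_succ]; exact ih.mul h

theorem Prn.prod {R : Subalgebra k K} {ι : Type*} (s : Finset ι) {W : ι → Submodule k K}
    {c : ι → K} (h : ∀ i ∈ s, Prn R (W i) (c i)) : Prn R (∏ i ∈ s, W i) (∏ i ∈ s, c i) := by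
  classical
  induction s using Finset.induction_on with
  | empty => rw [Finset.prod_empty, Finset.prod_empty]; exact Prn.one R
  | insert i s hi ih =>
    rw [Finset.prod_insert hi, Finset.prod_insert hi]
    exact (h i (Finset.mem_insert_self _ _)).mul
      (ih fun j hj => h j (Finset.mem_insert_of_mem hj))

/-- The criterion of the charts. -/
theorem Prn.of {V : ValuationSubring K} {P : Submodule k K} {W : Submodule k K} {c : K}
    (hc : c ≠ 0) (h1 : ∀ q ∈ W, q / c ∈ NV V P) (h2 : ∃ q ∈ W, V.valuation (q / c) = 1) :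
    Prn (NV V P) W c := by
  obtain ⟨q, hq, hq1⟩ := h2
  apply le_antisymm
  · rw [Submodule.mul_le]
    intro s hs w hw
    exact mem_mul_span.2 ⟨s * (w / c), (NV V P).mul_mem hs (h1 w hw), by field_simp⟩
  · intro z hz
    obtain ⟨s, hs, rfl⟩ := mem_mul_span.1 hz
    have hqc0 : q / c ≠ 0 := by intro h0; rw [h0] at hq1; simp at hq1
    have hq0 : q ≠ 0 := by rintro rfl; simp at hqc0
    have h3 := Submodule.mul_mem_mul (show s * (q / c)⁻¹ ∈ Subalgebra.toSubmodule (NV V P) from
      (NV V P).mul_mem hs (NV_inv (h1 q hq) hq1)) hq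
    rwa [show s * (q / c)⁻¹ * q = s * c by rw [inv_div]; field_simp] at h3

end Gen

section Chart

variable {k K : Type u} [Field k] [Field K] [Algebra k K] {n N : ℕ} {P : Submodule k K}
  {Q : Fin N → Submodule k K} {e : ℕ}

/-- The integral vector. -/
def toZ (d : Fin N → Fin e) : Fin N → ℤ := fun j => ((d j : ℕ) : ℤ)

/-- The family of the `e`-th roots of the class `d`. -/
def Id (P : Submodule k K) (Q : Fin N → Submodule k K) (d : Fin N → Fin e)
    (V : ValuationSubring K) : Submodule k K :=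
  Subalgebra.toSubmodule (NV V P) * Submodule.span k
    {z | z ^ e ∈ Subalgebra.toSubmodule (NV V P) * ∏ j, Q j ^ (d j : ℕ)}

theorem mon_phi (C : TChart n P Q (fun _ => 0) e) (d : Fin N → Fin e) :
    mon C.x (C.φ (toZ d)) = ∏ j, mon C.x (C.φ (Pi.single j 1)) ^ (d j : ℕ) := by
  have h1 : toZ d = ∑ j, (d j : ℕ) • (Pi.single j 1 : Fin N → ℤ) := by
    funext i
    rw [Finset.sum_apply, Finset.sum_eq_single i]
    · simp [toZ]
    · intro j _ hj
      rw [Pi.smul_apply, Pi.single_eq_of_ne (Ne.symm hj), smul_zero]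
    · simp
  rw [h1, map_sum, mon_sum C.x_ne]
  refine Finset.prod_congr rfl fun j _ => ?_
  rw [map_nsmul, mon_nsmul]

theorem prn_cls (C : TChart n P Q (fun _ => 0) e) {V : ValuationSubring K} (hV : ZDim k V)
    (hU : ∀ z ∈ C.F, z ∈ V) (d : Fin N → Fin e) :
    Prn (NV V P) (∏ j, Q j ^ (d j : ℕ)) (mon C.x (C.φ (toZ d))) := by
  rw [mon_phi]
  refine Prn.prod _ fun j _ => Prn.pow ?_ _
  obtain ⟨h1, h2⟩ := C.cls V hV hU j
  simp only [pow_zero, mul_one] at h1 h2
  exact Prn.of (mon_ne_zero C.x_ne _) h1 h2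

theorem mon_mem_NV (C : TChart n P Q (fun _ => 0) e) {V : ValuationSubring K} (hV : ZDim k V)
    (hU : ∀ z ∈ C.F, z ∈ V) {m : Fin C.r → ℤ} (hm : m ∈ C.T) : mon C.x m ∈ NV V P := by
  rw [C.ring V hV hU]
  refine le_locV _ (Algebra.subset_adjoin (Or.inl ?_))
  exact Algebra.subset_adjoin (Or.inl ⟨m, hm, rfl⟩)

theorem Id_chart (hP : IsModel P) (hF : Fin' P) (he : 0 < e) (C : TChart n P Q (fun _ => 0) e)
    {V : ValuationSubring K} (hV : ZDim k V) (hU : ∀ z ∈ C.F, z ∈ V) (d : Fin N → Fin e) :
    Id P Q d V = Subalgebra.toSubmodule (NV V P) *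
      Submodule.span k (mon C.x '' {m | e • m - C.φ (toZ d) ∈ C.T}) := by
  have hprn := prn_cls C hV hU d
  rw [Prn] at hprn
  apply le_antisymm
  · rw [Id, Submodule.mul_le]
    intro s hs z hz
    refine smul_mem' hs ?_
    refine Submodule.span_induction (p := fun z _ => z ∈ Subalgebra.toSubmodule (NV V P) *
      Submodule.span k (mon C.x '' {m | e • m - C.φ (toZ d) ∈ C.T})) ?_ ?_ ?_ ?_ hz
    · intro z hz
      have h1 : z ^ e ∈ Subalgebra.toSubmodule (NV V P) * ∏ j, Q j ^ (d j : ℕ) := hz
      rw [hprn] at h1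
      obtain ⟨s, hs, h1⟩ := mem_mul_span.1 h1
      have h2 : z ^ e / mon C.x (C.φ (toZ d)) ∈ NV V P := by
        rw [h1, mul_div_cancel_right₀ _ (mon_ne_zero C.x_ne _)]
        exact hs
      have h3 := TGh53.dm_chart' C hP hF hV hU he h2
      have h4 : z ∈ (Submodule.span (NV V P)
        (mon C.x '' {m | e • m - C.φ (toZ d) ∈ C.T}) : Set K) := h3
      rw [coe_span] at h4
      exact h4
    · exact Submodule.zero_mem _
    · intro x y _ _ hx hy
      exact Submodule.add_mem _ hx hy
    · intro c x _ hx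
      exact Submodule.smul_mem _ c hx
  · rw [Id]
    refine mul_le_mul' le_rfl (Submodule.span_mono ?_)
    rintro _ ⟨m, hm, rfl⟩
    change mon C.x m ^ e ∈ Subalgebra.toSubmodule (NV V P) * ∏ j, Q j ^ (d j : ℕ)
    rw [hprn]
    refine mem_mul_span.2 ⟨mon C.x (e • m - C.φ (toZ d)), mon_mem_NV C hV hU hm, ?_⟩
    rw [← mon_add C.x_ne, sub_add_cancel, mon_nsmul]

theorem Id_chart_fin (hP : IsModel P) (hF : Fin' P) (he : 0 < e)
    (C : TChart n P Q (fun _ => 0) e) (d : Fin N → Fin e) : ∃ T : Finset K,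
    ∀ V : ValuationSubring K, ZDim k V → (∀ z ∈ C.F, z ∈ V) →
      Id P Q d V = Subalgebra.toSubmodule (NV V P) * Submodule.span k (T : Set K) := by
  classical
  obtain ⟨M, hM, hM'⟩ := rowE2b C.T C.T_fg C.T_sat e he (C.φ (toZ d))
  refine ⟨M.image (mon C.x), fun V hV hU => ?_⟩
  rw [Id_chart hP hF he C hV hU d]
  apply le_antisymm
  · rw [Submodule.mul_le]
    intro s hs z hz
    refine smul_mem' hs ?_
    refine Submodule.span_induction (p := fun z _ => z ∈ Subalgebra.toSubmodule (NV V P) *
      Submodule.span k ((M.image (mon C.x) : Finset K) : Set K)) ?_ ?_ ?_ ?_ hz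
    · rintro _ ⟨m, hm, rfl⟩
      obtain ⟨m', hm', hmm⟩ := hM' m hm
      have h1 := Submodule.mul_mem_mul (show mon C.x (m - m') ∈
        Subalgebra.toSubmodule (NV V P) from mon_mem_NV C hV hU hmm)
        (Submodule.subset_span (R := k) (s := ((M.image (mon C.x) : Finset K) : Set K))
          (Finset.mem_coe.2 (Finset.mem_image_of_mem (mon C.x) hm')))
      rwa [← mon_add C.x_ne, sub_add_cancel] at h1
    · exact Submodule.zero_mem _
    · intro x y _ _ hx hy
      exact Submodule.add_mem _ hx hy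
    · intro c x _ hx
      exact Submodule.smul_mem _ c hx
  · refine mul_le_mul' le_rfl (Submodule.span_mono ?_)
    intro z hz
    obtain ⟨m, hm, rfl⟩ := Finset.mem_image.1 (Finset.mem_coe.1 hz)
    exact ⟨m, hM m hm, rfl⟩

theorem coh_Id (hP : IsModel P) (hF : Fin' P) (hQ : ∀ j, IsModel (Q j)) (he : 0 < e)
    (h : HasAtlas n P Q (fun _ => 0) e) (d : Fin N → Fin e) :
    CohF (ZDim k) P (fun V => NV V P) (Id P Q d) := by
  intro V hV
  obtain ⟨m, C, hC⟩ := h
  obtain ⟨i, hi⟩ := hC V hV
  have hN := TGh53.nrm_tor (C i).ind (C i).T_fg (TGh53.chart_sat (C i))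
  obtain ⟨F, hFN, hval⟩ := exists_valid hP.fg (fun j => (hQ j).fg) (C i) hN
    (TGh53.chart_frac (C i) hP hF hV hi) hV hi
  obtain ⟨T, hT⟩ := Id_chart_fin hP hF he (withF (C i) F hval) d
  refine ⟨(C i).f, (C i).min V hV hi, T, F, hFN, fun V' hV' _ hF' => ?_⟩
  exact hT V' hV' fun z hz => NV_le hV'.ov hP z (hF' z hz)

/-- **(S1a) + (S1b): the roots of the classes are given by finite dimensional spaces.** -/
theorem fam [IsAlgClosed k] (hP : IsModel P) (hF : Fin' P) (hQ : ∀ j, IsModel (Q j)) (he : 0 < e)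
    (h : HasAtlas n P Q (fun _ => 0) e) :
    ∃ (M : ℕ) (R : (Fin N → Fin e) → Submodule k K), (∀ d, IsModel (R d)) ∧
      ∀ (C : TChart n P Q (fun _ => 0) e) (V : ValuationSubring K), ZDim k V →
        (∀ z ∈ C.F, z ∈ V) → ∀ d : Fin N → Fin e,
          (∀ q ∈ R d, q / C.f ^ M ∈ Submodule.span (NV V P)
            (mon C.x '' {m | e • m - C.φ (toZ d) ∈ C.T})) ∧
          ∀ m, e • m - C.φ (toZ d) ∈ C.T →
            mon C.x m ∈ Submodule.span (NV V P) ((fun q => q / C.f ^ M) '' (R d : Set K)) := by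
  classical
  choose N₀ hN₀ using fun d : Fin N → Fin e =>
    family_NV zc_zdim hP.fg (coh_Id hP hF hQ he h d)
  obtain ⟨M, hM⟩ : ∃ M, ∀ d, N₀ d ≤ M := ⟨Finset.univ.sup N₀, fun d => Finset.le_sup (Finset.mem_univ d)⟩
  choose R hR hI using fun d => hN₀ d M (hM d)
  refine ⟨M, R, fun d => ⟨hR d, ?_⟩, fun C V hV hU d => ⟨fun q hq => ?_, fun m hm => ?_⟩⟩
  · -- some zero-dimensional valuation ring
    intro hbot
    obtain ⟨V, -, hV, -⟩ := (zc_zdim (k := k) (K := K)).spec ⊤ ⊥ Subalgebra.fg_bot
      fun a _ => ValuationSubring.mem_top a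
    obtain ⟨m, C, hC⟩ := h
    obtain ⟨i, hi⟩ := hC V hV
    obtain ⟨b, hb, b', hb', hc⟩ := TGh53.chart_full (C i) hP hF hV hi ((C i).φ (toZ d))
    have h1 : e • b - (C i).φ (toZ d) ∈ (C i).T := by
      obtain ⟨e', rfl⟩ : ∃ e', e = e' + 1 := ⟨e - 1, by omega⟩
      rw [hc, succ_nsmul, show e' • b + b - (b - b') = e' • b + b' by abel]
      exact AddSubmonoid.add_mem _ (AddSubmonoid.nsmul_mem _ hb _) hb'
    have h2 : mon (C i).x b ∈ Id P Q d V := by
      rw [Id_chart hP hF he (C i) hV hi d]
      have := Submodule.mul_mem_mul (show (1 : K) ∈ Subalgebra.toSubmodule (NV V P) from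
        (NV V P).one_mem) (Submodule.subset_span (R := k)
          (s := mon (C i).x '' {m | e • m - (C i).φ (toZ d) ∈ (C i).T}) ⟨b, h1, rfl⟩)
      rwa [one_mul] at this
    rw [hI d V hV _ ((C i).min V hV hi), hbot] at h2
    have h3 : dv (⊥ : Submodule k K) ((C i).f ^ M) = ⊥ := Submodule.map_bot _
    rw [h3, Submodule.mul_bot, Submodule.mem_bot] at h2
    exact mon_ne_zero (C i).x_ne _ h2
  · have h1 : q / C.f ^ M ∈ Id P Q d V := by
      rw [hI d V hV _ (C.min V hV hU)]
      have := Submodule.mul_mem_mul (show (1 : K) ∈ Subalgebra.toSubmodule (NV V P) from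
        (NV V P).one_mem) (mem_dv.2 ⟨q, hq, rfl⟩ : q / C.f ^ M ∈ dv (R d) (C.f ^ M))
      rwa [one_mul] at this
    rw [Id_chart hP hF he C hV hU d] at h1
    have h2 : q / C.f ^ M ∈ (Submodule.span (NV V P)
      (mon C.x '' {m | e • m - C.φ (toZ d) ∈ C.T}) : Set K) := by
      rw [coe_span]
      exact h1
    exact h2
  · have h1 : mon C.x m ∈ Id P Q d V := by
      rw [Id_chart hP hF he C hV hU d]
      have := Submodule.mul_mem_mul (show (1 : K) ∈ Subalgebra.toSubmodule (NV V P) from
        (NV V P).one_mem) (Submodule.subset_span (R := k)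
          (s := mon C.x '' {m | e • m - C.φ (toZ d) ∈ C.T}) ⟨m, hm, rfl⟩)
      rwa [one_mul] at this
    rw [hI d V hV _ (C.min V hV hU)] at h1
    have h2 : mon C.x m ∈ (Submodule.span (NV V P)
      ((fun q => q / C.f ^ M) '' (R d : Set K)) : Set K) := by
      rw [coe_span_eq]
      exact h1
    exact h2

end Chart

end Pool.Agent.TGA98
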