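import Pool.Agent.Lib.TGA_h75.Atlas
import Pool.Agent.Lib.TG_h53.Trace
import Pool.Agent.Lib.TG.A5

/-!
# TANK G, END block, STEP 1: a chart is valid on an open set of the normalised model
-/

set_option autoImplicit false

namespace Pool.Agent.TGA98

open Pool.Agent.TG
open Pool.Agent.LU2 (locV le_locV locV_mono locV_le locV_inv locV_mem locV_locV)
open Pool.Agent.TGh53 (frac Nrm adj etale_ncl)

universe u

variable {k K : Type u} [Field k] [Field K] [Algebra k K] {n : ℕ} {P : Submodule k K} {ι : Type}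
  [Fintype ι] [DecidableEq ι] {Q : ι → Submodule k K} {a : ι → ℕ} {e : ℕ}

/-- The chart `C` is valid for all zero-dimensional `V ⊇ F`. -/
structure Valid (C : TChart n P Q a e) (F : Finset K) : Prop where
  min : ∀ V : ValuationSubring K, ZDim k V → (∀ z ∈ F, z ∈ V) → IsMin V P C.f
  ring : ∀ V : ValuationSubring K, ZDim k V → (∀ z ∈ F, z ∈ V) →
    NV V P = locV V (Algebra.adjoin k ((tor k C.x C.y C.T : Set K) ∪ {C.θ}))
  der : ∀ V : ValuationSubring K, ZDim k V → (∀ z ∈ F, z ∈ V) →
    V.valuation (C.Φ.derivative.eval C.θ) = 1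
  cls : ∀ V : ValuationSubring K, ZDim k V → (∀ z ∈ F, z ∈ V) → ∀ j,
    (∀ q ∈ Q j, q / (mon C.x (C.φ (Pi.single j 1)) * C.f ^ a j) ∈ NV V P) ∧
      ∃ q ∈ Q j, V.valuation (q / (mon C.x (C.φ (Pi.single j 1)) * C.f ^ a j)) = 1

/-- The chart with another open set. -/
def withF (C : TChart n P Q a e) (F : Finset K) (h : Valid C F) : TChart n P Q a e :=
  { C with F := F, min := h.min, ring := h.ring, der := h.der, cls := h.cls }

/-- The ring of the chart. -/
def bring (C : TChart n P Q a e) : Subalgebra k K := adj (tor k C.x C.y C.T) C.θ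

theorem bring_fg (C : TChart n P Q a e) : ∃ G : Finset K, Algebra.adjoin k (G : Set K) = bring C := by
  classical
  obtain ⟨S, hS⟩ := C.T_fg
  refine ⟨S.image (mon C.x) ∪ (Finset.univ.image C.y ∪ {C.θ}), le_antisymm ?_ ?_⟩
  · refine Algebra.adjoin_le ?_
    intro z hz
    rw [Finset.coe_union, Finset.coe_union, Finset.coe_image, Finset.coe_image] at hz
    rcases hz with ⟨m, hm, rfl⟩ | ⟨i, -, rfl⟩ | hz
    · refine TGh53.le_adj _ _ (Algebra.subset_adjoin (Or.inl ⟨m, ?_, rfl⟩))
      rw [← hS]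
      exact AddSubmonoid.subset_closure hm
    · exact TGh53.le_adj _ _ (Algebra.subset_adjoin (Or.inr ⟨i, rfl⟩))
    · rw [Finset.coe_singleton, Set.mem_singleton_iff] at hz
      rw [hz]
      exact TGh53.mem_adj _ _
  · refine TGh53.adj_le ?_ ?_
    · refine Algebra.adjoin_le ?_
      rintro _ (⟨m, hm, rfl⟩ | ⟨i, rfl⟩)
      · have hm' : m ∈ AddSubmonoid.closure (S : Set (Fin C.r → ℤ)) := by rw [hS]; exact hm
        clear hm
        induction hm' using AddSubmonoid.closure_induction with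
        | mem m hm =>
          exact Algebra.subset_adjoin (by
            rw [Finset.coe_union]
            exact Or.inl (by rw [Finset.coe_image]; exact ⟨m, hm, rfl⟩))
        | zero => rw [mon_zero]; exact Subalgebra.one_mem _
        | add m m' hm hm' ih ih' =>
          rw [mon_add C.x_ne]
          exact Subalgebra.mul_mem _ ih ih'
      · exact Algebra.subset_adjoin (by
          rw [Finset.coe_union, Finset.coe_union]
          exact Or.inr (Or.inl (by simp)))
    · exact Algebra.subset_adjoin (by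
        rw [Finset.coe_union, Finset.coe_union]
        exact Or.inr (Or.inr (by simp)))

/-- A common denominator of a finite set. -/
theorem common_den {V : ValuationSubring K} {S : Subalgebra k K} (G : Finset K)
    (hG : ∀ g ∈ G, g ∈ locV V S) : ∃ h ∈ S, V.valuation h = 1 ∧ ∀ g ∈ G, h * g ∈ S := by
  classical
  induction G using Finset.induction_on with
  | empty => exact ⟨1, S.one_mem, map_one _, fun g hg => absurd hg (Finset.notMem_empty g)⟩
  | insert g G hg ih =>
    obtain ⟨h, hh, h1, hG'⟩ := ih fun g hg => hG g (Finset.mem_insert_of_mem hg)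
    obtain ⟨c, hc, b, hb, hb1, hgb⟩ := hG g (Finset.mem_insert_self _ _)
    have hb0 : b ≠ 0 := by rintro rfl; simp at hb1
    refine ⟨h * b, S.mul_mem hh hb, by rw [map_mul, h1, hb1, one_mul], fun g' hg' => ?_⟩
    rcases Finset.mem_insert.1 hg' with rfl | hg'
    · rw [hgb, show h * b * (c / b) = h * c by field_simp]
      exact S.mul_mem hh hc
    · rw [show h * b * g' = b * (h * g') by ring]
      exact S.mul_mem hb (hG' g' hg')

theorem val_one_of {V : ValuationSubring K} {x : K} (h0 : x ≠ 0) (h1 : x ∈ V) (h2 : x⁻¹ ∈ V) :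
    V.valuation x = 1 := by
  have h1 := (V.valuation_le_one_iff _).2 h1
  have h2 := (V.valuation_le_one_iff _).2 h2
  rw [map_inv₀] at h2
  have hv0 : V.valuation x ≠ 0 := by rwa [Valuation.ne_zero_iff]
  exact le_antisymm h1 ((inv_le_one₀ (by rwa [zero_lt_iff])).1 h2)

/-- **Normalisation of the open set of a chart.** -/
theorem exists_valid (hP : P.FG) (hQ : ∀ j, (Q j).FG) (C : TChart n P Q a e)
    (hN : Nrm (tor k C.x C.y C.T)) (hgen : ∀ x : K, x ∈ frac (bring C))
    {V₀ : ValuationSubring K} (hV₀ : ZDim k V₀) (hF₀ : ∀ z ∈ C.F, z ∈ V₀) :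
    ∃ F : Finset K, (∀ z ∈ F, z ∈ NV V₀ P) ∧ Valid C F := by
  classical
  have hm₀ : IsMin V₀ P C.f := C.min V₀ hV₀ hF₀
  have hne : P ≠ ⊥ := fun h => hm₀.ne (by simpa [h] using hm₀.mem)
  have hPm : IsModel P := ⟨hP, hne⟩
  have hr₀ : NV V₀ P = locV V₀ (bring C) := C.ring V₀ hV₀ hF₀
  have hB₀ : ∀ b ∈ bring C, b ∈ NV V₀ P := fun b hb => hr₀ ▸ le_locV _ hb
  obtain ⟨SP, hSP⟩ := hP
  choose SQ hSQ using hQ
  obtain ⟨G, hG⟩ := bring_fg C
  -- the elements `p / f`
  have hp₀ : ∀ g ∈ SP.image (fun p => p / C.f), g ∈ locV V₀ (bring C) := by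
    intro g hg
    obtain ⟨p, hp, rfl⟩ := Finset.mem_image.1 hg
    rw [← hr₀]
    refine RV_le_NV (div_mem_RV hm₀ ?_)
    rw [← hSP]
    exact Submodule.subset_span hp
  obtain ⟨b, hb, hb1, hbp⟩ := common_den _ hp₀
  -- the classes
  let cl : ι → K := fun j => mon C.x (C.φ (Pi.single j 1)) * C.f ^ a j
  have hcls := C.cls V₀ hV₀ hF₀
  choose q hq hq1 using fun j => (hcls j).2
  have hq0 : ∀ j, q j / cl j ≠ 0 := by
    intro j h0
    have := hq1 j
    change V₀.valuation (q j / cl j) = 1 at this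
    rw [h0] at this
    simp at this
  let E : Finset K := G ∪ ((Finset.univ.biUnion fun j => (SQ j).image fun q => q / cl j) ∪
    Finset.univ.image fun j => (q j / cl j)⁻¹)
  have hE : ∀ g ∈ E, g ∈ NV V₀ P := by
    intro g hg
    rcases Finset.mem_union.1 hg with hg | hg
    · exact hB₀ _ (hG ▸ Algebra.subset_adjoin hg)
    · rcases Finset.mem_union.1 hg with hg | hg
      · obtain ⟨j, -, hg⟩ := Finset.mem_biUnion.1 hg
        obtain ⟨q, hq, rfl⟩ := Finset.mem_image.1 hg
        refine (hcls j).1 q ?_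
        rw [← hSQ j]
        exact Submodule.subset_span hq
      · obtain ⟨j, -, rfl⟩ := Finset.mem_image.1 hg
        exact NV_inv ((hcls j).1 _ (hq j)) (hq1 j)
  have hNV₀ : NV V₀ P = locV V₀ (chN P C.f) := NV_eq hm₀
  obtain ⟨h, hh, hh1, hhE⟩ := common_den E fun g hg => hNV₀ ▸ hE g hg
  have hd₀ : C.Φ.derivative.eval C.θ ∈ bring C := by
    rw [Polynomial.eval_eq_sum_range]
    refine Subalgebra.sum_mem _ fun i _ => Subalgebra.mul_mem _ (TGh53.le_adj _ _ ?_)
      (Subalgebra.pow_mem _ (TGh53.mem_adj _ _) _)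
    rw [Polynomial.coeff_derivative]
    refine Subalgebra.mul_mem _ (C.coeff _) ?_
    exact Subalgebra.add_mem _ (natCast_mem _ _) (Subalgebra.one_mem _)
  have hd1 := C.der V₀ hV₀ hF₀
  refine ⟨SP.image (fun p => p / C.f) ∪ (G ∪ {b⁻¹, h⁻¹, (C.Φ.derivative.eval C.θ)⁻¹}), ?_, ?_⟩
  · intro z hz
    rcases Finset.mem_union.1 hz with hz | hz
    · rw [hr₀]
      exact hp₀ z hz
    · rcases Finset.mem_union.1 hz with hz | hz
      · exact hB₀ _ (hG ▸ Algebra.subset_adjoin hz)
      · simp only [Finset.mem_insert, Finset.mem_singleton] at hz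
        rcases hz with rfl | rfl | rfl
        · exact NV_inv (hB₀ b hb) hb1
        · exact NV_inv (hNV₀ ▸ le_locV _ hh) hh1
        · exact NV_inv (hB₀ _ hd₀) hd1
  · -- validity
    have hb0 : b ≠ 0 := by rintro rfl; simp at hb1
    have hh0 : h ≠ 0 := by rintro rfl; simp at hh1
    have hd0 : C.Φ.derivative.eval C.θ ≠ 0 := by intro h0; rw [h0] at hd1; simp at hd1
    have key : ∀ V : ValuationSubring K, ZDim k V →
        (∀ z ∈ SP.image (fun p => p / C.f) ∪ (G ∪ {b⁻¹, h⁻¹, (C.Φ.derivative.eval C.θ)⁻¹}),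
          z ∈ V) →
        IsMin V P C.f ∧ (∀ g ∈ E, g ∈ NV V P) ∧ NV V P = locV V (bring C) ∧
          V.valuation (C.Φ.derivative.eval C.θ) = 1 := by
      intro V hV hFV
      have hmin : IsMin V P C.f := by
        have h1 : IsMin V (Submodule.span k (SP : Set K)) C.f :=
          isMin_of_span hV.ov (by rw [hSP]; exact hm₀.mem) hm₀.ne fun p hp =>
            hFV _ (Finset.mem_union_left _ (Finset.mem_image_of_mem _ hp))
        rwa [hSP] at h1
      have hNV : NV V P = locV V (chN P C.f) := NV_eq hmin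
      have hchV : ∀ x ∈ chN P C.f, x ∈ V := ncl_mem (ch_le hV.ov hmin)
      have hh1' : V.valuation h = 1 := val_one_of hh0 (hchV h hh) (hFV _ (by simp))
      have hEV : ∀ g ∈ E, g ∈ NV V P := by
        intro g hg
        rw [hNV]
        exact ⟨h * g, hhE g hg, h, hh, hh1', by rw [mul_div_cancel_left₀ _ hh0]⟩
      have hBN : bring C ≤ NV V P := by
        rw [← hG]
        refine Algebra.adjoin_le fun g hg => hEV g (Finset.mem_union_left _ hg)
      have hBV : ∀ x ∈ bring C, x ∈ V := fun x hx => NV_le hV.ov hPm x (hBN hx)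
      have hb1' : V.valuation b = 1 := val_one_of hb0 (hBV b hb) (hFV _ (by simp))
      have hd1' : V.valuation (C.Φ.derivative.eval C.θ) = 1 :=
        val_one_of hd0 (hBV _ hd₀) (hFV _ (by simp))
      have hch : ch P C.f ≤ locV V (bring C) := by
        rw [ch_le_iff]
        intro p hp
        rw [← hSP] at hp
        refine Submodule.span_induction (p := fun p _ => p / C.f ∈ locV V (bring C))
          ?_ ?_ ?_ ?_ hp
        · intro p hp
          exact ⟨b * (p / C.f), hbp _ (Finset.mem_image_of_mem _ hp), b, hb, hb1', by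
            rw [mul_div_cancel_left₀ _ hb0]⟩
        · rw [zero_div]; exact Subalgebra.zero_mem _
        · intro x y _ _ hx hy
          rw [add_div]
          exact Subalgebra.add_mem _ hx hy
        · intro c x _ hx
          rw [smul_div_assoc]
          exact Subalgebra.smul_mem _ hx c
      have hN2 : locV V (ncl (tor k C.x C.y C.T)) = locV V (bring C) :=
        etale_ncl (fun x hx => hBV x (TGh53.le_adj _ _ hx)) hN C.monic C.coeff C.root hd1' hgen
      have hnB : ncl (bring C) ≤ ncl (tor k C.x C.y C.T) := by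
        rw [← ncl_ncl (tor k C.x C.y C.T)]
        refine ncl_mono (TGh53.adj_le (le_ncl _) ?_)
        exact mem_ncl_of_root C.Φ C.monic (fun i => le_ncl _ (C.coeff i)) C.root
      refine ⟨hmin, hEV, le_antisymm ?_ ?_, hd1'⟩
      · calc NV V P = locV V (ncl (ch P C.f)) := hNV
          _ ≤ locV V (ncl (locV V (bring C))) := locV_mono (ncl_mono hch)
          _ = locV V (ncl (bring C)) := locV_ncl_locV _
          _ ≤ locV V (ncl (tor k C.x C.y C.T)) := locV_mono hnB
          _ = locV V (bring C) := hN2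
      · exact locV_le hBN fun x hx h1 => NV_inv hx h1
    refine ⟨fun V hV hF => (key V hV hF).1, fun V hV hF => (key V hV hF).2.2.1,
      fun V hV hF => (key V hV hF).2.2.2, fun V hV hF j => ?_⟩
    obtain ⟨-, hEV, -, -⟩ := key V hV hF
    have hall : ∀ p ∈ Q j, p / cl j ∈ NV V P := by
      intro p hp
      rw [← hSQ j] at hp
      refine Submodule.span_induction (p := fun p _ => p / cl j ∈ NV V P) ?_ ?_ ?_ ?_ hp
      · intro p hp
        exact hEV _ (Finset.mem_union_right _ (Finset.mem_union_left _ (Finset.mem_biUnion.2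
          ⟨j, Finset.mem_univ _, Finset.mem_image_of_mem _ hp⟩)))
      · rw [zero_div]; exact Subalgebra.zero_mem _
      · intro x y _ _ hx hy
        rw [add_div]
        exact Subalgebra.add_mem _ hx hy
      · intro c x _ hx
        rw [smul_div_assoc]
        exact Subalgebra.smul_mem _ hx c
    refine ⟨hall, q j, hq j, ?_⟩
    refine val_one_of (hq0 j) (NV_le hV.ov hPm _ (hall _ (hq j))) ?_
    exact NV_le hV.ov hPm _ (hEV _ (Finset.mem_union_right _ (Finset.mem_union_right _
      (Finset.mem_image_of_mem _ (Finset.mem_univ j)))))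

/-- Every element of `K` is a fraction of the ring of the chart. -/
theorem frac_bring (hF : Fin' P) (C : TChart n P Q a e) {V₀ : ValuationSubring K}
    (hV₀ : ZDim k V₀) (hF₀ : ∀ z ∈ C.F, z ∈ V₀) (x : K) : x ∈ frac (bring C) := by
  classical
  have hm₀ : IsMin V₀ P C.f := C.min V₀ hV₀ hF₀
  have hr₀ : locV V₀ (chN P C.f) = locV V₀ (bring C) := by
    rw [← NV_eq hm₀]
    exact C.ring V₀ hV₀ hF₀
  obtain ⟨c, hc0, hc⟩ := (hF.isAlgebraic hm₀.ne x).exists_integral_multiple
  have h1 : (c : K) * x ∈ locV V₀ (bring C) := by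
    rw [← hr₀]
    refine le_locV _ ?_
    change IsIntegral (ch P C.f) _
    rwa [Algebra.smul_def] at hc
  have h2 : (c : K) ∈ locV V₀ (bring C) := by
    rw [← hr₀]
    exact le_locV _ (le_ncl _ c.2)
  obtain ⟨a₁, ha₁, b₁, hb₁, hv₁, h1⟩ := h1
  obtain ⟨a₂, ha₂, b₂, hb₂, hv₂, h2⟩ := h2
  have hb₁0 : b₁ ≠ 0 := by rintro rfl; simp at hv₁
  have hb₂0 : b₂ ≠ 0 := by rintro rfl; simp at hv₂
  have hcK : (c : K) ≠ 0 := fun h => hc0 (Subtype.ext h)
  have ha₂0 : a₂ ≠ 0 := by
    rintro rfl
    rw [zero_div] at h2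
    exact hcK h2
  refine ⟨a₁ * b₂, (bring C).mul_mem ha₁ hb₂, a₂ * b₁, (bring C).mul_mem ha₂ hb₁,
    mul_ne_zero ha₂0 hb₁0, ?_⟩
  have h3 : x = a₁ / b₁ / (c : K) := by rw [← h1, mul_div_cancel_left₀ _ hcK]
  rw [h3, h2]
  field_simp

end Pool.Agent.TGA98
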